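import Pool.Agent.E8helper20.CTM.StmA
import Pool.Agent.E8helper50.CTM.Core

/-!
# Project CTM, piece M8 RAMM (helper50)
-/

set_option autoImplicit false
set_option linter.unusedVariables false

open scoped Classical

namespace Pool.Agent.E8helper50.CTM

/-- CTM-M8 -/
theorem t_RAMM : Pool.Agent.E8helper20.CTM.S_RAMM := by
  intro c c' n hc hc' J _ π e hD i₀ hi u a hT
  exact ⟨fun h j p _ ι hπ R hS => ram hc hD hi hT h j p ι hπ R hS,
    fun h p _ ι hp hπ R hS τ σ hcm hτ => unr hc hD hi hT h p ι hp hπ R hS τ σ hcm hτ,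
    fun v h hK j hj p _ ι hπ => ramc hc hc' hD hi hT v h hK j hj p ι hπ⟩

end Pool.Agent.E8helper50.CTM
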